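import Pool.Agent.H37.CNS.Stmts

/-!
# CY2: the lower ramification numbers of a cyclic group of order `p ^ 2`
-/

set_option autoImplicit false

namespace Pool.CND

open Finset

namespace CY2

variable {k L : Type} [Field k] [Field L] [Algebra k L]

/-- linear independence of the powers of an automorphism: the trace is not zero -/
theorem trace_ne (g : L ≃ₐ[k] L) (n : ℕ) (hn : 0 < n) (hg : orderOf g = n) :
    ∃ θ : L, ∑ j ∈ range n, (g ^ j) θ ≠ 0 := by
  by_contra hcon
  push Not at hcon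
  have hli := linearIndependent_monoidHom L L
  have hinj : Function.Injective (fun j : Fin n => (((g ^ (j : ℕ)) : L ≃ₐ[k] L) : L →* L)) := by
    intro a b hab
    have h1 : g ^ (a : ℕ) = g ^ (b : ℕ) := by
      apply AlgEquiv.ext
      intro x
      exact DFunLike.congr_fun hab x
    exact Fin.ext (pow_injOn_Iio_orderOf (by simp [hg]) (by simp [hg]) h1)
  have h2 := (hli.comp _ hinj)
  rw [Fintype.linearIndependent_iff] at h2
  have h3 := h2 (fun _ => 1) (by
    funext x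
    have := hcon x
    simp only [Function.comp_apply, one_smul, Finset.sum_apply, Pi.zero_apply]
    rw [← this, ← Fin.sum_univ_eq_sum_range (fun j => (g ^ j) x) n]
    rfl) ⟨0, hn⟩
  exact one_ne_zero h3

theorem as_gen (p : ℕ) (hp : p.Prime) (hc : CharP k p) (g : L ≃ₐ[k] L) (hg : orderOf g = p) :
    ∃ Y : L, g Y - Y = 1 := by
  obtain ⟨θ, hθ⟩ := trace_ne g p hp.pos hg
  have hpL : (p : L) = 0 := by
    rw [← map_natCast (algebraMap k L), CharP.cast_eq_zero, map_zero]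
  have hgp : g ^ p = 1 := by rw [← hg]; exact pow_orderOf_eq_one g
  obtain ⟨T, hT⟩ : ∃ T : L, T = ∑ j ∈ range p, (g ^ j) θ := ⟨_, rfl⟩
  rw [← hT] at hθ
  have shift : ∀ f : ℕ → L, ∑ j ∈ range p, f (j + 1) = ∑ j ∈ range p, f j + f p - f 0 := by
    intro f
    rw [← Finset.sum_range_succ, Finset.sum_range_succ' f p]
    ring
  have hgs : ∀ (j : ℕ) (x : L), g ((g ^ j) x) = (g ^ (j + 1)) x := by
    intro j x
    rw [pow_succ', AlgEquiv.mul_apply]
  have hgT : g T = T := by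
    rw [hT, map_sum]
    simp only [hgs]
    rw [shift (fun j => (g ^ j) θ), hgp, pow_zero]
    ring
  have hgjT : ∀ j : ℕ, (g ^ j) T = T := by
    intro j
    induction j with
    | zero => rw [pow_zero]; rfl
    | succ j ih => rw [← hgs, ih, hgT]
  obtain ⟨η, hη⟩ : ∃ η : L, η = θ / T := ⟨_, rfl⟩
  have hsum : ∑ j ∈ range p, (g ^ j) η = 1 := by
    rw [hη]
    simp only [map_div₀, hgjT]
    rw [← Finset.sum_div, ← hT, div_self hθ]
  refine ⟨-∑ j ∈ range p, (j : L) * (g ^ j) η, ?_⟩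
  rw [map_neg, map_sum]
  simp only [map_mul, map_natCast, hgs]
  have e1 : ∑ j ∈ range p, (j : L) * (g ^ (j + 1)) η =
      ∑ j ∈ range p, (((j + 1 : ℕ) : L) * (g ^ (j + 1)) η) - ∑ j ∈ range p, (g ^ (j + 1)) η := by
    rw [← Finset.sum_sub_distrib]
    refine Finset.sum_congr rfl fun j _ => ?_
    push_cast
    ring
  rw [e1, shift (fun j => (j : L) * (g ^ j) η), shift (fun j => (g ^ j) η), hsum, hpL, hgp, pow_zero]
  push_cast
  ring

theorem ge_pow_sub (P : Place k L) (g : L ≃ₐ[k] L) (hf : Fixes P g) (u : L) (n : ℤ)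
    (h : P.Ge (g u - u) n) (m : ℕ) : P.Ge ((g ^ m) u - u) n := by
  induction m with
  | zero => exact Or.inl (by simp)
  | succ m ih =>
    have e : (g ^ (m + 1)) u - u = g ((g ^ m) u - u) + (g u - u) := by
      rw [pow_succ', AlgEquiv.mul_apply, map_sub]
      ring
    rw [e]
    exact P.ge_add (hf.ge ih) h

theorem pi_moved (hinj : S_INJ) (P : Place k L) (g : L ≃ₐ[k] L) (hf : Fixes P g) (hg : g ≠ 1) :
    g P.pi - P.pi ≠ 0 := fun h =>
  hg (hinj k L P g P.pi hf P.pi_ne P.ord_pi (sub_eq_zero.1 h))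

theorem b_nonneg (hinj : S_INJ) (P : Place k L) (g : L ≃ₐ[k] L) (hf : Fixes P g) (hg : g ≠ 1) :
    0 ≤ P.b g := by
  have h1 : P.Ge (g P.pi - P.pi) 1 := by
    refine P.ge_sub (hf.ge ?_) ?_
    · exact Or.inr P.ord_pi.ge
    · exact Or.inr P.ord_pi.ge
  have h2 := h1.resolve_left (pi_moved hinj P g hf hg)
  unfold Place.b
  omega

theorem b_pow (hinj : S_INJ) (P : Place k L) (g : L ≃ₐ[k] L) (hf : Fixes P g) (m : ℕ)
    (hm : g ^ m ≠ 1) : P.b g ≤ P.b (g ^ m) := by
  have h1 := ge_pow_sub P g hf P.pi (P.b g + 1) (Or.inr (by unfold Place.b; omega)) m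
  have h2 := h1.resolve_left (pi_moved hinj P _ (hf.pow m) hm)
  have h3 : P.b (g ^ m) = P.ord ((g ^ m) P.pi - P.pi) - 1 := rfl
  omega

end CY2

open CY2 in
theorem cy2_thm (hTRB : S_TRB) (hFXP : S_FXP) (hRST : S_RST) (hHER : S_HER) (hLO2 : S_LO2)
    (hLON : S_LON) (hINJ : S_INJ) : S_CY2 := by
  intro p k L _ _ _ P γ hp hch hfix hord
  have hp0 := hp.pos
  have hp1 := hp.one_lt
  have hgp1 : γ ^ p ≠ 1 := by
    intro h
    have h1 := orderOf_dvd_of_pow_eq_one h
    rw [hord] at h1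
    have h2 := Nat.le_of_dvd hp0 h1
    nlinarith
  have hγ1 : γ ≠ 1 := by
    intro h
    exact hgp1 (by rw [h, one_pow])
  have hb0 := b_nonneg hINJ P γ hfix hγ1
  have hb01 := b_pow hINJ P γ hfix p hgp1
  rcases hb0.eq_or_lt with hz | hpos
  · rw [← hz, mul_zero]
    exact b_nonneg hINJ P _ (hfix.pow p) hgp1
  -- the group
  obtain ⟨g, hg⟩ : ∃ g, g = γ ^ p := ⟨_, rfl⟩
  have hgo : orderOf g = p := by
    rw [hg, orderOf_pow_of_dvd hp0.ne' (by rw [hord]; exact Dvd.intro_left (p ^ 1) rfl), hord, pow_two,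
      Nat.mul_div_cancel _ hp0]
  have hgf : Fixes P g := by rw [hg]; exact hfix.pow p
  rw [← hg] at hgp1 hb01 ⊢
  let G := Subgroup.zpowers γ
  have hGc : Nat.card G = p ^ 2 := by
    rw [← hord]
    exact Nat.card_zpowers γ
  have : Finite G := Nat.finite_of_card_ne_zero (by rw [hGc]; positivity)
  letI : Fintype G := Fintype.ofFinite G
  let ρ : G →* (L ≃ₐ[k] L) := G.subtype
  have hρ : Function.Injective ρ := Subtype.val_injective
  let γ' : G := ⟨γ, Subgroup.mem_zpowers γ⟩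
  have hργ : ρ γ' = γ := rfl
  let N : Subgroup G := Subgroup.zpowers (γ' ^ p)
  have hργp : ρ (γ' ^ p) = g := by rw [map_pow, hργ, hg]
  have hNc : Nat.card N = p := by
    rw [Nat.card_zpowers, ← orderOf_injective ρ hρ, hργp, hgo]
  have hNfix : ∀ n ∈ N, Fixes P (ρ n) := by
    intro n hn
    obtain ⟨z, rfl⟩ := Subgroup.mem_zpowers_iff.1 hn
    rw [map_zpow, hργp]
    rcases z with z | z
    · rw [Int.ofNat_eq_natCast, zpow_natCast]
      exact hgf.pow z
    · rw [zpow_negSucc]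
      exact (hgf.pow _).inv
  obtain ⟨F, hF, Q, hQ⟩ := hFXP k L G P ρ N hρ hNfix
  have hcomm : ∀ n : G, γ' * n * γ'⁻¹ = n := by
    intro n
    obtain ⟨z, hz⟩ := Subgroup.mem_zpowers_iff.1 n.2
    apply Subtype.ext
    change γ * (n : L ≃ₐ[k] L) * γ⁻¹ = n
    rw [← hz]
    have h1 : Commute γ (γ ^ z) := (Commute.refl γ).zpow_right z
    rw [h1.eq, mul_inv_cancel_right]
  have hcomm' : ∀ n : G, γ'⁻¹ * n * γ' = n := by
    intro n
    have h1 := hcomm n
    have h2 : γ' * n = n * γ' := by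
      rw [mul_inv_eq_iff_eq_mul] at h1
      exact h1
    rw [mul_assoc, ← h2, inv_mul_cancel_left]
  obtain ⟨δ, hδ, hδf⟩ := hRST k L G P ρ N F Q γ' hF hQ (fun n hn => by rw [hcomm]; exact hn)
    (fun n hn => by rw [hcomm']; exact hn) (by rw [hργ]; exact hfix)
  -- membership in `F`
  have hFg : ∀ x : L, x ∈ F ↔ g x = x := by
    intro x
    rw [hF]
    constructor
    · intro h
      have h1 := h (γ' ^ p) (Subgroup.mem_zpowers _)
      rwa [hργp] at h1
    · intro h n hn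
      obtain ⟨z, rfl⟩ := Subgroup.mem_zpowers_iff.1 hn
      rw [map_zpow, hργp]
      have h2 : ∀ m : ℕ, (g ^ m) x = x := by
        intro m
        induction m with
        | zero => rw [pow_zero]; rfl
        | succ m ih => rw [pow_succ, AlgEquiv.mul_apply, h, ih]
      rcases z with z | z
      · rw [Int.ofNat_eq_natCast, zpow_natCast, h2]
      · rw [zpow_negSucc]
        have h3 := h2 (z + 1)
        have h4 : (g ^ (z + 1))⁻¹ ((g ^ (z + 1)) x) = x := by
          rw [← AlgEquiv.mul_apply, inv_mul_cancel, AlgEquiv.one_apply]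
        rwa [h3] at h4
  -- the generator with the largest order
  have hbg : 1 ≤ P.b g := by omega
  have hY0 : ∀ Y : L, g Y - Y = 1 → Y ≠ 0 := by
    rintro Y h rfl
    rw [map_zero, sub_zero] at h
    exact zero_ne_one h
  have hYb : ∀ Y : L, g Y - Y = 1 → P.ord Y ≤ -P.b g := by
    intro Y h
    have h1 := (hLON k L P g P.pi (P.b g) hgf P.pi_ne P.ord_pi (by omega)
      (Or.inr (by unfold Place.b; omega)) Y).resolve_right (hY0 Y h)
    rw [h] at h1
    have h2 := h1.resolve_left one_ne_zero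
    rw [P.ord_one] at h2
    omega
  obtain ⟨Y₀, hY₀⟩ := as_gen p hp hch g hgo
  obtain ⟨o, ⟨Y, hY, hYo⟩, hmax⟩ := Int.exists_greatest_of_bdd
    (P := fun o => ∃ Y : L, g Y - Y = 1 ∧ P.ord Y = o)
    ⟨-P.b g, by rintro z ⟨Y, h1, rfl⟩; exact hYb Y h1⟩ ⟨_, Y₀, hY₀, rfl⟩
  have hnd : ¬ (p : ℤ) ∣ P.ord Y := by
    rintro ⟨m, hm⟩
    obtain ⟨v, hv0, hv⟩ := Q.ord_surj
    have hvL0 : (v : L) ≠ 0 := fun h => hv0 (Subtype.ext h)
    have hvo : P.ord (v : L) = p := by
      rw [← hQ v hv0, hv, hNc, mul_one]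
    obtain ⟨q, hq⟩ : ∃ q : L, q = (v : L) ^ m := ⟨_, rfl⟩
    have hq0 : q ≠ 0 := by rw [hq]; exact zpow_ne_zero m hvL0
    have hqo : P.ord q = P.ord Y := by
      rw [hq, P.ord_zpow hvL0, hvo, hm]
      ring
    have hqF : q ∈ F := by
      rw [hq]
      exact zpow_mem v.2 m
    have hx0 : Y / q ≠ 0 := div_ne_zero (hY0 Y hY) hq0
    have hxo : P.ord (Y / q) = 0 := by
      rw [P.ord_div (hY0 Y hY) hq0, hqo, sub_self]
    obtain ⟨c, hc⟩ := P.residue (Y / q) hx0 hxo.ge
    have hcF : algebraMap k L c * q ∈ F := F.mul_mem (F.algebraMap_mem c) hqF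
    have hgY : g (Y - algebraMap k L c * q) - (Y - algebraMap k L c * q) = 1 := by
      rw [map_sub, (hFg _).1 hcF]
      linear_combination hY
    have e : Y - algebraMap k L c * q = (Y / q - algebraMap k L c) * q := by
      rw [sub_mul, div_mul_cancel₀ _ hq0]
    have hne := hY0 _ hgY
    rw [e] at hne
    have hne' := left_ne_zero_of_mul hne
    have hlt := hc.resolve_left (fun h => hne' (sub_eq_zero.2 h))
    have h1 := hmax _ ⟨_, hgY, rfl⟩
    rw [e, P.ord_mul _ _ hne' hq0, hqo, hYo] at h1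
    omega
  have hYeq : P.ord Y = -P.b g := by
    have h1 := ((hLO2 p k L P g P.pi (P.b g) hp hch hgf P.pi_ne P.ord_pi hbg
      (fun h => pi_moved hINJ P g hgf hgp1 (sub_eq_zero.2 h)) (by unfold Place.b; omega) Y
      (hY0 Y hY)).1 hnd).2
    rw [hY, P.ord_one] at h1
    omega
  -- the element `w`
  obtain ⟨w, hw⟩ : ∃ w : L, w = γ Y - Y := ⟨_, rfl⟩
  have hgY : g Y = Y + 1 := by linear_combination hY
  have hgγ : g (γ Y) = γ (g Y) := by
    rw [← AlgEquiv.mul_apply, ← AlgEquiv.mul_apply, hg, ← pow_succ, ← pow_succ']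
  have hwF : w ∈ F := by
    rw [hFg, hw, map_sub, hgγ, hgY, map_add, map_one]
    ring
  have hδpow : ∀ (j : ℕ) (x : F), (((δ ^ j) x : F) : L) = (γ ^ j) x := by
    intro j
    induction j with
    | zero => intro x; rfl
    | succ j ih =>
      intro x
      rw [pow_succ, pow_succ, AlgEquiv.mul_apply, AlgEquiv.mul_apply, ih, hδ, hργ]
  have htrw : ∑ j ∈ range p, (δ ^ j) (⟨w, hwF⟩ : F) = 1 := by
    apply Subtype.ext
    rw [AddSubmonoidClass.coe_finsetSum]
    simp only [hδpow]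
    have h1 : ∀ j : ℕ, (γ ^ j) w = (γ ^ (j + 1)) Y - (γ ^ j) Y := by
      intro j
      rw [hw, map_sub, pow_succ, AlgEquiv.mul_apply]
    simp only [h1]
    rw [Finset.sum_range_sub (fun j => (γ ^ j) Y), ← hg, pow_zero, AlgEquiv.one_apply, hY]
    rfl
  have hδ1 : δ ≠ 1 := by
    intro h
    rw [h] at htrw
    simp only [one_pow, AlgEquiv.one_apply, Finset.sum_const, Finset.card_range, nsmul_eq_mul] at htrw
    have hpF : (p : F) = 0 := by
      rw [← map_natCast (algebraMap k F), CharP.cast_eq_zero, map_zero]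
    rw [hpF, zero_mul] at htrw
    exact zero_ne_one htrw
  have hδp : δ ^ p = 1 := by
    apply AlgEquiv.ext
    intro x
    apply Subtype.ext
    rw [hδpow, ← hg, (hFg _).1 x.2]
    rfl
  have hδo : orderOf δ = p := by
    have : Fact p.Prime := ⟨hp⟩
    exact orderOf_eq_prime hδp hδ1
  have hγN : γ' ∉ N := by
    intro h
    apply hδ1
    apply AlgEquiv.ext
    intro x
    apply Subtype.ext
    rw [hδ]
    exact (hF x).1 x.2 γ' h
  have hher := hHER k L G P ρ N F Q γ' δ hρ hNfix hF hQ hγN (by rw [hργ]; exact hfix) hδ hδf hδ1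
  have hbx : ∀ x : G, γ'⁻¹ * x ∈ N → P.b (ρ x) = P.b γ := by
    intro x hx
    obtain ⟨n, hn⟩ := mem_powers_iff_mem_zpowers.2 hx
    have hn' : (γ' ^ p) ^ n = γ'⁻¹ * x := hn
    have hx1 : x = γ' ^ (1 + p * n) := by
      rw [pow_add, pow_mul, hn', pow_one, mul_inv_cancel_left]
    have hx2 : ρ x = γ ^ (1 + p * n) := by rw [hx1, map_pow, hργ]
    have hcop : (1 + p * n).Coprime (orderOf γ) := by
      rw [hord]
      apply Nat.Coprime.pow_right
      simp
    obtain ⟨m, hm⟩ := exists_pow_eq_self_of_coprime hcop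
    have hne1 : γ ^ (1 + p * n) ≠ 1 := by
      intro h
      rw [h, one_pow] at hm
      exact hγ1 hm.symm
    rw [hx2]
    apply le_antisymm
    · have h1 := b_pow hINJ P (γ ^ (1 + p * n)) (hfix.pow _) m (by rw [hm]; exact hγ1)
      rwa [hm] at h1
    · exact b_pow hINJ P γ hfix _ hne1
  have hsm : sm (fun x => P.b (ρ x)) {x | γ'⁻¹ * x ∈ N} = p * P.b γ := by
    classical
    unfold sm
    rw [Finset.sum_congr rfl (fun x hx => hbx x (by simpa using hx)), Finset.sum_const, nsmul_eq_mul]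
    congr 1
    rw [← hNc, Nat.card_eq_fintype_card, ← Finset.card_univ]
    norm_cast
    symm
    refine Finset.card_bij (fun n _ => γ' * (n : G)) ?_ ?_ ?_
    · intro n _
      simp
    · intro a _ b _ h
      exact Subtype.ext (mul_left_cancel h)
    · intro x hx
      refine ⟨⟨γ'⁻¹ * x, by simpa using hx⟩, Finset.mem_univ _, ?_⟩
      simp
  rw [hsm, hNc] at hher
  have hQb : Q.b δ = P.b γ := by
    have h1 : (p : ℤ) ≠ 0 := by exact_mod_cast hp0.ne'
    exact (mul_left_cancel₀ h1 hher).symm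
  have htrb := hTRB p k F Q δ ⟨w, hwF⟩ hp hch hδf hδo (by rw [hQb]; omega) htrw
  rw [hQb] at htrb
  have hw0 : (⟨w, hwF⟩ : F) ≠ 0 := by
    intro h
    rw [h] at htrw
    simp at htrw
  have hwo := hQ ⟨w, hwF⟩ hw0
  rw [hNc] at hwo
  have hlon := (hLON k L P γ P.pi (P.b γ) hfix P.pi_ne P.ord_pi (by omega)
      (Or.inr (by unfold Place.b; omega)) Y).resolve_right (hY0 Y hY)
  rw [← hw, hYeq] at hlon
  have hwL0 : w ≠ 0 := fun h => hw0 (Subtype.ext h)
  have hlon' := hlon.resolve_left hwL0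
  have hpp : (1 : ℤ) ≤ p := by exact_mod_cast hp0
  have h5 : (p : ℤ) * Q.ord (⟨w, hwF⟩ : F) ≤ (p : ℤ) * (-((p : ℤ) - 1) * P.b γ) :=
    mul_le_mul_of_nonneg_left htrb (by omega)
  rw [hwo] at h5
  have h6 : P.ord w ≤ (p : ℤ) * (-((p : ℤ) - 1) * P.b γ) := h5
  linarith [h6, hlon', (by ring : (p : ℤ) * (-((p : ℤ) - 1) * P.b γ) = -((p : ℤ) ^ 2 - p) * P.b γ),
    (by ring : ((p : ℤ) ^ 2 - p + 1) * P.b γ = ((p : ℤ) ^ 2 - p) * P.b γ + P.b γ)]

end Pool.CND
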